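import Mathlib

/-!
# Largest zero modulus for the class U_n

For `a > 0` let `e_k(x) = x (x-1) ... (x-k+1) / (a)_k`, let `L` be the linear map with
`L e_k = x^k`, and let `U_n` be the real polynomials `P` of degree `n` with all zeros of `L P` in
`[-1, 0]`.  We prove that the supremum `R_n` of the moduli of the complex zeros of the members of
`U_n` equals `a + n - 1`.

Proof.  For fixed nonreal `z`, evaluation `P(z)` is a linear functional of `F = L P`.  On the
powers `(x + w)^k` it satisfies a three term recurrence in `k`; a numerical range computation with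
weights depending on `w` shows that, if `Im z > 0` and `z` lies outside the disc with diameter
`[-(a+n-1), n-1]`, the functional does not vanish on `(x + w)^n` for `Im w >= 0`.  The half plane
form of the Grace-Walsh-Szego theorem (proved below by Laguerre's argument) then shows that it does
not vanish on any product of `n` factors `x + r`, `r` real.
-/

open Polynomial Finset ENNReal

namespace Pool.Agent.Results.MP_03af15_an.LargestZeroModulus

/-- geometric lemma -/
theorem geo1 (p q : ℝ) (hp : 0 ≤ p) (hq : 0 ≤ q) (E F : ℂ) (hEF : E * F = 1) (hE : ‖E‖ ≤ 1)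
    (h1 : (E + F).im ≤ 0) (h2 : 0 < ((p : ℂ) * E + q * F).im) :
    ‖(p : ℂ) * E + q * F‖ ≤ p + q := by
  have hE0 : E ≠ 0 := by
    rintro rfl
    simp at hEF
  have hR : 0 < ‖E‖ := norm_pos_iff.mpr hE0
  set R := ‖E‖ with hRdef
  have hFn : ‖F‖ = R⁻¹ := by
    have : ‖E‖ * ‖F‖ = 1 := by rw [← norm_mul, hEF, norm_one]
    exact eq_inv_of_mul_eq_one_right this
  have hbound : ‖(p : ℂ) * E + q * F‖ ≤ p * R + q * R⁻¹ := by
    refine (norm_add_le _ _).trans ?_
    rw [norm_mul, norm_mul, hFn, Complex.norm_real, Complex.norm_real, Real.norm_of_nonneg hp,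
      Real.norm_of_nonneg hq]
  refine hbound.trans ?_
  have hF : F = E⁻¹ := eq_inv_of_mul_eq_one_right hEF
  have hFim : F.im = -E.im / R ^ 2 := by
    rw [hF, Complex.inv_im, Complex.normSq_eq_norm_sq]
  have him1 : E.im + -E.im / R ^ 2 ≤ 0 := by
    rw [← hFim]; simpa using h1
  have him2 : 0 < p * E.im + q * (-E.im / R ^ 2) := by
    rw [← hFim]; simpa using h2
  have hR2 : 0 < R ^ 2 := by positivity
  have a1 : E.im * (R ^ 2 - 1) ≤ 0 := by
    have := mul_le_mul_of_nonneg_right him1 hR2.le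
    have e : (E.im + -E.im / R ^ 2) * R ^ 2 = E.im * (R ^ 2 - 1) := by
      field_simp
      ring
    rw [e] at this
    simpa using this
  have a2 : 0 < E.im * (p * R ^ 2 - q) := by
    have := mul_pos him2 hR2
    have e : (p * E.im + q * (-E.im / R ^ 2)) * R ^ 2 = E.im * (p * R ^ 2 - q) := by
      field_simp
      ring
    rwa [e] at this
  rcases eq_or_lt_of_le hE with h | h
  · rw [h]; simp
  · have hR1 : R ^ 2 - 1 < 0 := by nlinarith
    have hEim : 0 ≤ E.im := by
      by_contra hc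
      push Not at hc
      nlinarith [mul_pos_of_neg_of_neg hc hR1]
    have hq2 : q < p * R ^ 2 := by
      by_contra hc
      push Not at hc
      have : E.im * (p * R ^ 2 - q) ≤ 0 := mul_nonpos_of_nonneg_of_nonpos hEim (by linarith)
      linarith
    have hqR : q ≤ p * R := by
      have : p * R ^ 2 ≤ p * R := by
        apply mul_le_mul_of_nonneg_left _ hp
        nlinarith
      linarith
    have hkey : q * (1 - R) ≤ p * R * (1 - R) := mul_le_mul_of_nonneg_right hqR (by linarith)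
    have e : p + q - (p * R + q * R⁻¹) = (p * R * (1 - R) - q * (1 - R)) / R := by
      field_simp
      ring
    have : 0 ≤ (p * R * (1 - R) - q * (1 - R)) / R := div_nonneg (by linarith) hR.le
    linarith

theorem geo2 (m η : ℝ) (hη : |η| ≤ m) (ζ σ : ℂ) (hσ : σ ^ 2 = ζ * (1 - ζ)) (hζ : 0 ≤ ζ.im)
    (h2 : 0 < ((m : ℂ) * (1 - 2 * ζ) + 2 * Complex.I * η * σ).im) :
    ‖(m : ℂ) * (1 - 2 * ζ) + 2 * Complex.I * η * σ‖ ≤ m := by
  have hη1 : -m ≤ η := (abs_le.mp hη).1
  have hη2 : η ≤ m := (abs_le.mp hη).2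
  set E : ℂ := (1 - 2 * ζ) + 2 * Complex.I * σ with hE
  set F : ℂ := (1 - 2 * ζ) - 2 * Complex.I * σ with hF
  have hEF : E * F = 1 := by
    have : E * F = (1 - 2 * ζ) ^ 2 - 4 * Complex.I ^ 2 * σ ^ 2 := by rw [hE, hF]; ring
    rw [this, Complex.I_sq, hσ]; ring
  have hFE : F * E = 1 := by rw [mul_comm]; exact hEF
  have hw : (m : ℂ) * (1 - 2 * ζ) + 2 * Complex.I * η * σ
      = (((m + η) / 2 : ℝ) : ℂ) * E + (((m - η) / 2 : ℝ) : ℂ) * F := by
    rw [hE, hF]; push_cast; ring
  have hw' : (m : ℂ) * (1 - 2 * ζ) + 2 * Complex.I * η * σ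
      = (((m - η) / 2 : ℝ) : ℂ) * F + (((m + η) / 2 : ℝ) : ℂ) * E := by
    rw [hE, hF]; push_cast; ring
  have hsum : (E + F).im ≤ 0 := by
    have : E + F = 2 - 4 * ζ := by rw [hE, hF]; ring
    rw [this]
    simp
    linarith
  rcases le_total ‖E‖ 1 with h | h
  · rw [hw] at h2 ⊢
    have := geo1 ((m + η) / 2) ((m - η) / 2) (by linarith) (by linarith) E F hEF h hsum h2
    linarith
  · have hF1 : ‖F‖ ≤ 1 := by
      have : ‖E‖ * ‖F‖ = 1 := by rw [← norm_mul, hEF, norm_one]
      nlinarith [norm_nonneg F]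
    rw [hw'] at h2 ⊢
    have := geo1 ((m - η) / 2) ((m + η) / 2) (by linarith) (by linarith) F E hFE hF1
      (by rw [add_comm]; exact hsum) h2
    linarith

theorem seqlem (a : ℝ) (ha : 0 < a) (z ζ σ : ℂ) (hσ : σ ^ 2 = ζ * (1 - ζ)) (hσ0 : σ ≠ 0)
    (q : ℕ → ℂ) (hq0 : q 0 = 1)
    (hrec : ∀ k : ℕ, ((a : ℂ) + k) * q (k + 1) =
      (z - k + ζ * (2 * k + a)) * q k + ζ * (1 - ζ) * k * q (k - 1))
    (N : ℕ) (hqN : q (N + 1) = 0) :
    ∃ m η : ℝ, m ≤ N + a / 2 ∧ |η| ≤ m ∧
      z + a / 2 = (m : ℂ) * (1 - 2 * ζ) + 2 * Complex.I * η * σ := by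
  set ρ : ℝ := ‖σ‖ ^ 2 with hρ
  have hρ0 : 0 < ρ := by
    have := norm_pos_iff.mpr hσ0
    positivity
  have hσσ : σ * (starRingEnd ℂ) σ = (ρ : ℂ) := by
    rw [Complex.mul_conj, Complex.normSq_eq_norm_sq]
  -- weights
  let W : ℕ → ℝ := fun k => ∏ j ∈ range k, ((a + j) / ((j + 1) * ρ))
  have hWpos : ∀ k, 0 < W k := fun k => by
    apply prod_pos
    intro j _
    positivity
  have hWrec : ∀ k, W (k + 1) * (k + 1) * ρ = W k * (a + k) := by
    intro k
    have : W (k + 1) = W k * ((a + k) / ((k + 1) * ρ)) := prod_range_succ _ _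
    rw [this]
    field_simp
  set S : ℝ := ∑ k ∈ range (N + 1), W k * ‖q k‖ ^ 2 with hS
  set K : ℝ := ∑ k ∈ range (N + 1), W k * k * ‖q k‖ ^ 2 with hK
  set X : ℂ := ∑ k ∈ range N, (W k * (a + k) : ℝ) * ((starRingEnd ℂ) (q k) * q (k + 1)) with hX
  have hS0 : 0 < S := by
    rw [hS, sum_range_succ']
    have h1 : 0 < W 0 * ‖q 0‖ ^ 2 := by
      rw [hq0]; simp [hWpos 0]
    have h2 : 0 ≤ ∑ k ∈ range N, W (k + 1) * ‖q (k + 1)‖ ^ 2 := by
      apply sum_nonneg
      intro k _
      have := hWpos (k + 1)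
      positivity
    linarith
  have hK0 : 0 ≤ K := by
    apply sum_nonneg
    intro k _
    have := hWpos k
    positivity
  have hKN : K ≤ N * S := by
    rw [hK, hS, mul_sum]
    apply sum_le_sum
    intro k hk
    have hk' : (k : ℝ) ≤ N := by
      have := mem_range.mp hk
      exact_mod_cast Nat.lt_succ_iff.mp this
    have := hWpos k
    calc W k * k * ‖q k‖ ^ 2 = k * (W k * ‖q k‖ ^ 2) := by ring
      _ ≤ N * (W k * ‖q k‖ ^ 2) := by
        apply mul_le_mul_of_nonneg_right hk'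
        positivity
  -- main identity
  have hmain : X = (z + a * ζ) * S - (1 - 2 * ζ) * K
      + (ζ * (1 - ζ) / ρ) * (starRingEnd ℂ) X := by
    have hcongr : ∀ k, (W k : ℂ) * (starRingEnd ℂ) (q k) * (((a : ℂ) + k) * q (k + 1)) =
        (W k : ℂ) * (starRingEnd ℂ) (q k) * ((z - k + ζ * (2 * k + a)) * q k
          + ζ * (1 - ζ) * k * q (k - 1)) := fun k => by rw [hrec k]
    have hsum : ∑ k ∈ range (N + 1),
        (W k : ℂ) * (starRingEnd ℂ) (q k) * (((a : ℂ) + k) * q (k + 1)) =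
        ∑ k ∈ range (N + 1), (W k : ℂ) * (starRingEnd ℂ) (q k) *
          ((z - k + ζ * (2 * k + a)) * q k + ζ * (1 - ζ) * k * q (k - 1)) :=
      sum_congr rfl fun k _ => hcongr k
    have hl : ∑ k ∈ range (N + 1),
        (W k : ℂ) * (starRingEnd ℂ) (q k) * (((a : ℂ) + k) * q (k + 1)) = X := by
      rw [sum_range_succ, hqN, hX]
      simp only [mul_zero, add_zero]
      apply sum_congr rfl
      intro k _
      push_cast
      ring
    have hr : ∑ k ∈ range (N + 1), (W k : ℂ) * (starRingEnd ℂ) (q k) *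
          ((z - k + ζ * (2 * k + a)) * q k + ζ * (1 - ζ) * k * q (k - 1)) =
        (z + a * ζ) * S - (1 - 2 * ζ) * K + (ζ * (1 - ζ) / ρ) * (starRingEnd ℂ) X := by
      have e1 : ∀ k, (W k : ℂ) * (starRingEnd ℂ) (q k) *
          ((z - k + ζ * (2 * k + a)) * q k + ζ * (1 - ζ) * k * q (k - 1)) =
          ((z + a * ζ) * ((W k * ‖q k‖ ^ 2 : ℝ) : ℂ)
            - (1 - 2 * ζ) * ((W k * k * ‖q k‖ ^ 2 : ℝ) : ℂ))
          + ζ * (1 - ζ) * ((W k : ℂ) * k * ((starRingEnd ℂ) (q k) * q (k - 1))) := by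
        intro k
        have hqq : (starRingEnd ℂ) (q k) * q k = ((‖q k‖ ^ 2 : ℝ) : ℂ) := by
          rw [mul_comm, Complex.mul_conj, Complex.normSq_eq_norm_sq]
        have : (W k : ℂ) * (starRingEnd ℂ) (q k) *
          ((z - k + ζ * (2 * k + a)) * q k + ζ * (1 - ζ) * k * q (k - 1)) =
          (W k : ℂ) * (z - k + ζ * (2 * k + a)) * ((starRingEnd ℂ) (q k) * q k)
          + ζ * (1 - ζ) * ((W k : ℂ) * k * ((starRingEnd ℂ) (q k) * q (k - 1))) := by ring
        rw [this, hqq]
        push_cast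
        ring
      rw [sum_congr rfl fun k _ => e1 k, sum_add_distrib, sum_sub_distrib, ← mul_sum, ← mul_sum,
        ← mul_sum, hS, hK]
      push_cast
      congr 1
      rw [sum_range_succ', hX, map_sum, mul_sum]
      simp only [Nat.cast_zero, mul_zero, zero_mul, add_zero, mul_sum]
      apply sum_congr rfl
      intro k _
      rw [map_mul, map_mul, Complex.conj_ofReal, Complex.conj_conj, ← hWrec k]
      have hρ' : (ρ : ℂ) ≠ 0 := by exact_mod_cast hρ0.ne'
      push_cast
      field_simp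
    rw [hl, hr] at hsum
    exact hsum
  -- Cauchy-Schwarz
  have hCS : ‖X‖ ^ 2 ≤ (a * S + K) * (ρ * K) := by
    have h1 : ‖X‖ ≤ ∑ k ∈ range N, (Real.sqrt (W k * (a + k)) * ‖q k‖) *
        (Real.sqrt (W k * (a + k)) * ‖q (k + 1)‖) := by
      rw [hX]
      refine (norm_sum_le _ _).trans (le_of_eq ?_)
      apply sum_congr rfl
      intro k _
      have hp : 0 ≤ W k * (a + k) := by
        have := hWpos k
        positivity
      rw [norm_mul, norm_mul, Complex.norm_real, Real.norm_of_nonneg hp, RCLike.norm_conj]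
      calc W k * (a + k) * (‖q k‖ * ‖q (k + 1)‖)
          = (Real.sqrt (W k * (a + k)) * Real.sqrt (W k * (a + k))) * (‖q k‖ * ‖q (k + 1)‖) := by
            rw [Real.mul_self_sqrt hp]
        _ = _ := by ring
    have h2 := sum_mul_sq_le_sq_mul_sq (range N) (fun k => Real.sqrt (W k * (a + k)) * ‖q k‖)
      (fun k => Real.sqrt (W k * (a + k)) * ‖q (k + 1)‖)
    have h3 : ∑ k ∈ range N, (Real.sqrt (W k * (a + k)) * ‖q k‖) ^ 2 ≤ a * S + K := by
      have : a * S + K = ∑ k ∈ range (N + 1), (W k * (a + k)) * ‖q k‖ ^ 2 := by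
        rw [hS, hK, mul_sum, ← sum_add_distrib]
        apply sum_congr rfl
        intro k _
        ring
      rw [this, sum_range_succ]
      have hlast : 0 ≤ W N * (a + N) * ‖q N‖ ^ 2 := by
        have := hWpos N
        positivity
      have : ∑ k ∈ range N, (Real.sqrt (W k * (a + k)) * ‖q k‖) ^ 2 =
          ∑ k ∈ range N, (W k * (a + k)) * ‖q k‖ ^ 2 := by
        apply sum_congr rfl
        intro k _
        have hp : 0 ≤ W k * (a + k) := by
          have := hWpos k
          positivity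
        rw [mul_pow, Real.sq_sqrt hp]
      linarith
    have h4 : ∑ k ∈ range N, (Real.sqrt (W k * (a + k)) * ‖q (k + 1)‖) ^ 2 = ρ * K := by
      rw [hK, sum_range_succ']
      simp only [Nat.cast_zero, mul_zero, zero_mul, add_zero, mul_sum]
      apply sum_congr rfl
      intro k _
      have hp : 0 ≤ W k * (a + k) := by
        have := hWpos k
        positivity
      rw [mul_pow, Real.sq_sqrt hp, ← hWrec k]
      push_cast
      ring
    have hsumnn : 0 ≤ ∑ k ∈ range N, (Real.sqrt (W k * (a + k)) * ‖q k‖) *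
        (Real.sqrt (W k * (a + k)) * ‖q (k + 1)‖) := by
      apply sum_nonneg
      intro k _
      positivity
    calc ‖X‖ ^ 2 ≤ (∑ k ∈ range N, (Real.sqrt (W k * (a + k)) * ‖q k‖) *
        (Real.sqrt (W k * (a + k)) * ‖q (k + 1)‖)) ^ 2 := by
          apply pow_le_pow_left₀ (norm_nonneg _) h1
      _ ≤ _ := h2
      _ ≤ (a * S + K) * (ρ * K) := by
        rw [h4]
        apply mul_le_mul_of_nonneg_right h3
        positivity
  -- final
  refine ⟨K / S + a / 2, ((starRingEnd ℂ) σ * X).im / (ρ * S), ?_, ?_, ?_⟩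
  · have : K / S ≤ N := by
      rw [div_le_iff₀ hS0]
      exact hKN
    linarith
  · rw [abs_div, abs_of_pos (mul_pos hρ0 hS0), div_le_iff₀ (mul_pos hρ0 hS0)]
    have h1 : |((starRingEnd ℂ) σ * X).im| ≤ ‖σ‖ * ‖X‖ := by
      refine (Complex.abs_im_le_norm _).trans ?_
      rw [norm_mul, RCLike.norm_conj]
    have h2 : ‖X‖ ≤ ‖σ‖ * (K + a / 2 * S) := by
      apply le_of_sq_le_sq _ (by positivity)
      calc ‖X‖ ^ 2 ≤ (a * S + K) * (ρ * K) := hCS
        _ ≤ ρ * (K + a / 2 * S) ^ 2 := by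
          have : ρ * (K + a / 2 * S) ^ 2 - (a * S + K) * (ρ * K) = ρ * (a / 2 * S) ^ 2 := by ring
          have h3 : 0 ≤ ρ * (a / 2 * S) ^ 2 := by positivity
          linarith
        _ = (‖σ‖ * (K + a / 2 * S)) ^ 2 := by rw [mul_pow, hρ]
    calc |((starRingEnd ℂ) σ * X).im| ≤ ‖σ‖ * ‖X‖ := h1
      _ ≤ ‖σ‖ * (‖σ‖ * (K + a / 2 * S)) := mul_le_mul_of_nonneg_left h2 (norm_nonneg _)
      _ = (K / S + a / 2) * (ρ * S) := by
        rw [hρ]
        field_simp
  · have hρ' : (ρ : ℂ) ≠ 0 := by exact_mod_cast hρ0.ne'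
    have hS' : (S : ℂ) ≠ 0 := by exact_mod_cast hS0.ne'
    have hw : X - (ζ * (1 - ζ) / ρ) * (starRingEnd ℂ) X =
        2 * Complex.I * ((((starRingEnd ℂ) σ * X).im / ρ : ℝ) : ℂ) * σ := by
      have him : (starRingEnd ℂ) σ * X - σ * (starRingEnd ℂ) X
          = 2 * Complex.I * ((((starRingEnd ℂ) σ * X).im : ℝ) : ℂ) := by
        have := Complex.sub_conj ((starRingEnd ℂ) σ * X)
        rw [map_mul, Complex.conj_conj] at this
        rw [this]
        push_cast
        ring
      have : X - (ζ * (1 - ζ) / ρ) * (starRingEnd ℂ) X =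
          ((starRingEnd ℂ) σ * X - σ * (starRingEnd ℂ) X) * (σ / ρ) := by
        rw [← hσ]
        field_simp
        rw [← hσσ]
        ring
      rw [this, him]
      push_cast
      field_simp
    have hz : (z + a * ζ) * S = (1 - 2 * ζ) * K +
        2 * Complex.I * ((((starRingEnd ℂ) σ * X).im / ρ : ℝ) : ℂ) * σ := by
      rw [← hw]
      linear_combination -hmain
    have : z = ((1 - 2 * ζ) * K +
        2 * Complex.I * ((((starRingEnd ℂ) σ * X).im / ρ : ℝ) : ℂ) * σ) / S - a * ζ := by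
      rw [← hz]
      field_simp
      ring
    rw [this]
    push_cast
    field_simp
    ring

/-- convexity bound: sum of at most `m` numbers `w` with `im w + δ |w|^2 < 0`. -/
theorem multiset_bound (δ : ℝ) (hδ : 0 ≤ δ) (s : Multiset ℂ)
    (hs : ∀ w ∈ s, w.im + δ * ‖w‖ ^ 2 < 0) (h0 : s ≠ 0) :
    s.sum.im + δ * ‖s.sum‖ ^ 2 / s.card < 0 := by
  induction s using Multiset.induction with
  | empty => exact absurd rfl h0
  | cons w t ih =>
    rcases eq_or_ne t 0 with rfl | ht
    · simpa using hs w (by simp)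
    · have iht := ih (fun v hv => hs v (Multiset.mem_cons_of_mem hv)) ht
      have hw := hs w (by simp)
      have hc : 0 < (t.card : ℝ) := by
        have := Multiset.card_pos.mpr ht
        exact_mod_cast this
      rw [Multiset.sum_cons, Multiset.card_cons]
      set T := t.sum
      set c : ℝ := (t.card : ℝ)
      have hn : ‖w + T‖ ^ 2 ≤ (‖w‖ + ‖T‖) ^ 2 :=
        pow_le_pow_left₀ (norm_nonneg _) (norm_add_le _ _) 2
      have hcs : (‖w‖ + ‖T‖) ^ 2 / (c + 1) ≤ ‖w‖ ^ 2 + ‖T‖ ^ 2 / c := by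
        rw [div_le_iff₀ (by positivity)]
        have e : (‖w‖ ^ 2 + ‖T‖ ^ 2 / c) * (c + 1) - (‖w‖ + ‖T‖) ^ 2
            = (c * ‖w‖ - ‖T‖) ^ 2 / c := by
          field_simp
          ring
        have : 0 ≤ (c * ‖w‖ - ‖T‖) ^ 2 / c := by positivity
        linarith
      have h1 : ‖w + T‖ ^ 2 / (c + 1) ≤ ‖w‖ ^ 2 + ‖T‖ ^ 2 / c := by
        refine le_trans ?_ hcs
        gcongr
      have h2 : δ * ‖w + T‖ ^ 2 / (c + 1) ≤ δ * ‖w‖ ^ 2 + δ * ‖T‖ ^ 2 / c := by
        have := mul_le_mul_of_nonneg_left h1 hδ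
        calc δ * ‖w + T‖ ^ 2 / (c + 1) = δ * (‖w + T‖ ^ 2 / (c + 1)) := by ring
          _ ≤ δ * (‖w‖ ^ 2 + ‖T‖ ^ 2 / c) := this
          _ = _ := by ring
      push_cast
      rw [Complex.add_im]
      linarith

/-- Laguerre step for the closed upper half plane. -/
theorem gws_step (h : ℂ[X]) (m : ℕ) (hm : h.natDegree ≤ m) (hm0 : 1 ≤ m)
    (hroots : ∀ ζ : ℂ, 0 ≤ ζ.im → h.eval ζ ≠ 0) (r ζ : ℂ) (hr : 0 ≤ r.im) (hζ : 0 ≤ ζ.im) :
    m * h.eval ζ + (r - ζ) * h.derivative.eval ζ ≠ 0 := by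
  intro hcon
  have hmpos : 0 < (m : ℝ) := by exact_mod_cast hm0
  have hmC : (m : ℂ) ≠ 0 := by exact_mod_cast hmpos.ne'
  have hh := hroots ζ hζ
  have hsplit := (IsAlgClosed.splits h)
  have hdiv := hsplit.eval_derivative_div_eval_of_ne_zero hh
  -- h'/h = m/(ζ - r)
  have hne : ζ - r ≠ 0 := by
    intro h0
    have : r - ζ = 0 := by linear_combination -h0
    rw [this, zero_mul, add_zero] at hcon
    exact (mul_ne_zero hmC hh) hcon
  have hq : h.derivative.eval ζ / h.eval ζ = m / (ζ - r) := by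
    rw [div_eq_div_iff hh hne]
    linear_combination -hcon
  set s := h.roots.map fun z ↦ 1 / (ζ - z) with hs
  have hsum : s.sum = m / (ζ - r) := by rw [← hdiv, hq]
  have hs0 : s ≠ 0 := by
    intro h0
    rw [h0, Multiset.sum_zero] at hsum
    exact (div_ne_zero hmC hne) hsum.symm
  have hbd : ∀ w ∈ s, w.im + ζ.im * ‖w‖ ^ 2 < 0 := by
    intro w hw
    rw [hs, Multiset.mem_map] at hw
    obtain ⟨u, hu, rfl⟩ := hw
    have hu' : u.im < 0 := by
      by_contra hc
      push Not at hc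
      exact hroots u hc (isRoot_of_mem_roots hu)
    have hne' : ζ - u ≠ 0 := by
      intro h0
      have : ζ.im = u.im := by
        have := congrArg Complex.im h0
        simp at this
        linarith
      linarith
    have hpos : 0 < ‖ζ - u‖ ^ 2 := by
      have := norm_pos_iff.mpr hne'
      positivity
    rw [one_div, Complex.inv_im, Complex.normSq_eq_norm_sq, norm_inv, inv_pow]
    have : -(ζ - u).im / ‖ζ - u‖ ^ 2 + ζ.im * (‖ζ - u‖ ^ 2)⁻¹ = u.im / ‖ζ - u‖ ^ 2 := by
      rw [Complex.sub_im]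
      field_simp
      ring
    rw [this]
    exact div_neg_of_neg_of_pos hu' hpos
  have hB := multiset_bound ζ.im hζ s hbd hs0
  have hcard : (s.card : ℝ) ≤ m := by
    have : s.card ≤ m := by
      rw [hs, Multiset.card_map]
      exact (card_roots' h).trans hm
    exact_mod_cast this
  have hcard0 : 0 < (s.card : ℝ) := by
    have := Multiset.card_pos.mpr hs0
    exact_mod_cast this
  have hB' : s.sum.im + ζ.im * ‖s.sum‖ ^ 2 / m < 0 := by
    have : ζ.im * ‖s.sum‖ ^ 2 / m ≤ ζ.im * ‖s.sum‖ ^ 2 / s.card := by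
      gcongr
    linarith
  rw [hsum] at hB'
  have hpos : 0 < ‖ζ - r‖ ^ 2 := by
    have := norm_pos_iff.mpr hne
    positivity
  have e1 : ((m : ℂ) / (ζ - r)).im = m * (-(ζ - r).im / ‖ζ - r‖ ^ 2) := by
    rw [div_eq_mul_inv, show ((m : ℂ) * (ζ - r)⁻¹) = ((m : ℝ) : ℂ) * (ζ - r)⁻¹ by push_cast; rfl,
      Complex.im_ofReal_mul, Complex.inv_im, Complex.normSq_eq_norm_sq]
  have e2 : ‖(m : ℂ) / (ζ - r)‖ ^ 2 = m ^ 2 / ‖ζ - r‖ ^ 2 := by
    rw [norm_div, div_pow, Complex.norm_natCast]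
  rw [e1, e2] at hB'
  have e3 : (m : ℝ) * (-(ζ - r).im / ‖ζ - r‖ ^ 2) + ζ.im * (m ^ 2 / ‖ζ - r‖ ^ 2) / m
      = m * r.im / ‖ζ - r‖ ^ 2 := by
    rw [Complex.sub_im]
    field_simp
    ring
  rw [e3] at hB'
  have : 0 ≤ (m : ℝ) * r.im / ‖ζ - r‖ ^ 2 := by positivity
  linarith

/-- `e_k(x) = x (x-1) ... (x-k+1) / (a)_k`, where `(a)_k = a (a+1) ... (a+k-1)`. -/
noncomputable def e (a : ℝ) (k : ℕ) : ℝ[X] :=
  C ((ascPochhammer ℝ k).eval a)⁻¹ * descPochhammer ℝ k

/-- value of `e_k` at the complex point `z` -/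
noncomputable def ev (a : ℝ) (z : ℂ) (k : ℕ) : ℂ := aeval z (e a k)

/-- the functional sending `x^k` to `e_k(z)` -/
noncomputable def ell (a : ℝ) (z : ℂ) : ℂ[X] →ₗ[ℂ] ℂ :=
  Polynomial.lsum fun k => (LinearMap.id : ℂ →ₗ[ℂ] ℂ).smulRight (ev a z k)

theorem ell_monomial (a : ℝ) (z : ℂ) (k : ℕ) (c : ℂ) :
    ell a z (monomial k c) = c * ev a z k := by
  simp [ell, Polynomial.lsum]

theorem ell_eq_sum (a : ℝ) (z : ℂ) (F : ℂ[X]) (n : ℕ) (hn : F.natDegree ≤ n) :
    ell a z F = ∑ k ∈ range (n + 1), F.coeff k * ev a z k := by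
  conv_lhs => rw [F.as_sum_range' (n + 1) (Nat.lt_succ_of_le hn)]
  rw [map_sum]
  exact sum_congr rfl fun k _ => ell_monomial a z k _

theorem e_zero (a : ℝ) : e a 0 = 1 := by simp [e]

theorem ev_zero (a : ℝ) (z : ℂ) : ev a z 0 = 1 := by simp [ev, e_zero]

theorem e_succ (a : ℝ) (k : ℕ) :
    e a (k + 1) = C (a + k)⁻¹ * (e a k * (X - C (k : ℝ))) := by
  rw [e, e, descPochhammer_succ_right, ascPochhammer_succ_eval, mul_inv, C_mul]
  simp only [map_natCast]
  ring

theorem ev_succ (a : ℝ) (ha : 0 < a) (z : ℂ) (k : ℕ) :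
    ((a : ℂ) + k) * ev a z (k + 1) = (z - k) * ev a z k := by
  have h : ((a : ℂ) + k) ≠ 0 := by
    have : (a + k : ℝ) ≠ 0 := by positivity
    exact_mod_cast this
  rw [ev, e_succ, ev]
  simp only [map_mul, map_sub, aeval_X, aeval_C]
  simp
  field_simp

theorem ell_key (a : ℝ) (ha : 0 < a) (z : ℂ) (F : ℂ[X]) :
    ell a z (X * (1 + X) * derivative F + (C (a : ℂ) * X - C z) * F) = 0 := by
  induction F using Polynomial.induction_on' with
  | add p q hp hq =>
    have : X * (1 + X) * derivative (p + q) + (C (a : ℂ) * X - C z) * (p + q)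
        = (X * (1 + X) * derivative p + (C (a : ℂ) * X - C z) * p)
        + (X * (1 + X) * derivative q + (C (a : ℂ) * X - C z) * q) := by
      rw [derivative_add]; ring
    rw [this, map_add, hp, hq, add_zero]
  | monomial k c =>
    have h := ev_succ a ha z k
    have e1 : X * (1 + X) * derivative (monomial k c) + (C (a : ℂ) * X - C z) * monomial k c
        = monomial k (c * k) + monomial (k + 1) (c * k) + monomial (k + 1) (a * c)
          - monomial k (z * c) := by
      rw [derivative_monomial]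
      rcases k with _ | k
      · simp only [Nat.cast_zero, mul_zero, map_zero, zero_add, add_zero]
        rw [sub_mul, mul_assoc, X_mul_monomial, C_mul_monomial, C_mul_monomial]
      · simp only [Nat.add_sub_cancel]
        rw [show X * (1 + X) * monomial k (c * ((k + 1 : ℕ) : ℂ))
            = X * monomial k (c * ((k + 1 : ℕ) : ℂ)) + X * (X * monomial k (c * ((k + 1 : ℕ) : ℂ)))
            by ring, X_mul_monomial, X_mul_monomial, sub_mul, mul_assoc, X_mul_monomial,
          C_mul_monomial, C_mul_monomial]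
        ring
    rw [e1, map_sub, map_add, map_add, ell_monomial, ell_monomial, ell_monomial, ell_monomial]
    linear_combination c * h

theorem q_rec (a : ℝ) (ha : 0 < a) (z ζ : ℂ) (k : ℕ) :
    ((a : ℂ) + k) * ell a z ((X + C ζ) ^ (k + 1)) =
      (z - k + ζ * (2 * k + a)) * ell a z ((X + C ζ) ^ k)
        + ζ * (1 - ζ) * k * ell a z ((X + C ζ) ^ (k - 1)) := by
  have h := ell_key a ha z ((X + C ζ) ^ k)
  have hd : derivative ((X + C ζ) ^ k) = C (k : ℂ) * (X + C ζ) ^ (k - 1) := by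
    rw [derivative_pow]
    simp
  have e1 : X * (1 + X) * derivative ((X + C ζ) ^ k) + (C (a : ℂ) * X - C z) * (X + C ζ) ^ k
      = C ((a : ℂ) + k) * (X + C ζ) ^ (k + 1)
        - C (z - k + ζ * (2 * k + a)) * (X + C ζ) ^ k
        - C (ζ * (1 - ζ) * k) * (X + C ζ) ^ (k - 1) := by
    rw [hd]
    rcases k with _ | k
    · simp
      ring
    · simp only [Nat.add_sub_cancel]
      simp only [map_add, map_mul, map_sub, map_one, map_natCast, map_ofNat]
      ring
  rw [e1, map_sub, map_sub, ← smul_eq_C_mul, ← smul_eq_C_mul, ← smul_eq_C_mul, map_smul, map_smul,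
    map_smul, smul_eq_mul, smul_eq_mul, smul_eq_mul] at h
  linear_combination h

/-- static half plane lemma -/
theorem diag_ne_zero (a : ℝ) (ha : 0 < a) (z : ℂ) (hz : 0 < z.im) (N : ℕ)
    (hzN : (N : ℝ) + a / 2 < ‖z + a / 2‖) (ζ : ℂ) (hζ : 0 ≤ ζ.im) :
    ell a z ((X + C ζ) ^ (N + 1)) ≠ 0 := by
  intro h0
  set q : ℕ → ℂ := fun k => ell a z ((X + C ζ) ^ k) with hq
  have hq0 : q 0 = 1 := by
    simp only [hq, pow_zero]
    rw [show (1 : ℂ[X]) = monomial 0 1 from rfl, ell_monomial, ev_zero, one_mul]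
  have hrec := q_rec a ha z ζ
  by_cases hζ0 : ζ * (1 - ζ) = 0
  · have hζr : ζ.im = 0 := by
      rcases mul_eq_zero.mp hζ0 with h | h
      · rw [h]; simp
      · have : ζ = 1 := by linear_combination -h
        rw [this]; simp
    have hall : ∀ k, q k ≠ 0 := by
      intro k
      induction k with
      | zero => rw [hq0]; exact one_ne_zero
      | succ k ih =>
        intro hk
        have := hrec k
        rw [show ell a z ((X + C ζ) ^ (k + 1)) = q (k + 1) from rfl, hk, hζ0] at this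
        simp only [mul_zero, zero_mul, add_zero] at this
        have h3 := (mul_eq_zero.mp this.symm)
        rcases h3 with h3 | h3
        · have := congrArg Complex.im h3
          simp [hζr] at this
          linarith
        · exact ih h3
    exact hall _ h0
  · obtain ⟨σ, hσ⟩ : ∃ σ : ℂ, σ ^ 2 = ζ * (1 - ζ) := by
      obtain ⟨σ, hσ⟩ := IsAlgClosed.exists_pow_nat_eq (ζ * (1 - ζ)) (n := 2) (by norm_num)
      exact ⟨σ, hσ⟩
    have hσ0 : σ ≠ 0 := by
      rintro rfl
      exact hζ0 (by rw [← hσ]; simp)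
    obtain ⟨m, η, hm, hη, hw⟩ := seqlem a ha z ζ σ hσ hσ0 q hq0 hrec N h0
    have him : 0 < ((m : ℂ) * (1 - 2 * ζ) + 2 * Complex.I * η * σ).im := by
      rw [← hw]
      have : (z + (a : ℂ) / 2).im = z.im := by
        rw [Complex.add_im, show ((a : ℂ) / 2) = ((a / 2 : ℝ) : ℂ) by push_cast; rfl,
          Complex.ofReal_im, add_zero]
      rw [this]
      exact hz
    have := geo2 m η hη ζ σ hσ hζ him
    rw [← hw] at this
    linarith

theorem poly_step (L : ℂ[X] →ₗ[ℂ] ℂ) (F : ℂ[X]) (M : ℕ)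
    (hF : ∀ ζ : ℂ, 0 ≤ ζ.im → L (F * (X + C ζ) ^ (M + 1)) ≠ 0) (r ζ : ℂ) (hr : 0 ≤ r.im)
    (hζ : 0 ≤ ζ.im) : L (F * (X + C r) * (X + C ζ) ^ M) ≠ 0 := by
  set h : ℂ[X] := ∑ j ∈ range (M + 1 + 1),
    C (((M + 1).choose j : ℂ) * L (F * X ^ j)) * X ^ (M + 1 - j) with hh
  have heval : ∀ ζ : ℂ, h.eval ζ = L (F * (X + C ζ) ^ (M + 1)) := by
    intro ζ
    rw [hh, eval_finsetSum, add_pow, mul_sum, map_sum]
    apply sum_congr rfl
    intro j _
    rw [eval_mul, eval_C, eval_pow, eval_X]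
    have : F * (X ^ j * C ζ ^ (M + 1 - j) * ((M + 1).choose j : ℂ[X]))
        = C (ζ ^ (M + 1 - j) * ((M + 1).choose j : ℂ)) * (F * X ^ j) := by
      simp only [map_mul, map_pow, map_natCast]
      ring
    rw [this, ← smul_eq_C_mul, map_smul, smul_eq_mul]
    ring
  have hder : ∀ ζ : ℂ, h.derivative.eval ζ = (M + 1 : ℕ) * L (F * (X + C ζ) ^ M) := by
    intro ζ
    rw [hh, derivative_sum, eval_finsetSum, add_pow, mul_sum, map_sum, mul_sum,
      sum_range_succ]
    rw [Nat.sub_self, pow_zero, mul_one, derivative_C, eval_zero, add_zero]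
    apply sum_congr rfl
    intro j hj
    have hj' : j ≤ M := Nat.lt_succ_iff.mp (mem_range.mp hj)
    rw [derivative_C_mul_X_pow, eval_mul, eval_C, eval_pow, eval_X]
    have h1 : F * (X ^ j * C ζ ^ (M - j) * (M.choose j : ℂ[X]))
        = C (ζ ^ (M - j) * (M.choose j : ℂ)) * (F * X ^ j) := by
      simp only [map_mul, map_pow, map_natCast]
      ring
    rw [h1, ← smul_eq_C_mul, map_smul, smul_eq_mul]
    have h2 : M + 1 - j - 1 = M - j := by omega
    rw [h2]
    have h3 : ((M.choose j : ℂ)) * ((M + 1 : ℕ) : ℂ) = ((M + 1).choose j : ℂ) * ((M + 1 - j : ℕ) : ℂ) := by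
      exact_mod_cast Nat.choose_mul_succ_eq M j
    linear_combination (-(ζ ^ (M - j) * L (F * X ^ j))) * h3
  have hdeg : h.natDegree ≤ M + 1 := by
    rw [hh]
    apply natDegree_sum_le_of_forall_le
    intro j _
    refine (natDegree_C_mul_X_pow_le _ _).trans ?_
    omega
  have hst := gws_step h (M + 1) hdeg (by omega) (fun ζ hζ => by rw [heval]; exact hF ζ hζ) r ζ hr hζ
  intro hcon
  apply hst
  rw [heval, hder]
  have : F * (X + C r) * (X + C ζ) ^ M
      = F * (X + C ζ) ^ (M + 1) + C (r - ζ) * (F * (X + C ζ) ^ M) := by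
    simp only [map_sub]
    ring
  rw [this, map_add, ← smul_eq_C_mul, map_smul, smul_eq_mul] at hcon
  linear_combination ((M + 1 : ℕ) : ℂ) * hcon

theorem gws (L : ℂ[X] →ₗ[ℂ] ℂ) (n : ℕ)
    (hd : ∀ ζ : ℂ, 0 ≤ ζ.im → L ((X + C ζ) ^ n) ≠ 0) (s : Multiset ℂ) (hs : ∀ r ∈ s, 0 ≤ r.im) :
    ∀ M : ℕ, s.card + M = n → ∀ ζ : ℂ, 0 ≤ ζ.im →
      L ((s.map fun r => X + C r).prod * (X + C ζ) ^ M) ≠ 0 := by
  induction s using Multiset.induction with
  | empty =>
    intro M hM ζ hζ
    have : M = n := by simpa using hM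
    subst this
    simpa using hd ζ hζ
  | cons r t ih =>
    intro M hM ζ hζ
    have ih' := ih (fun v hv => hs v (Multiset.mem_cons_of_mem hv)) (M + 1)
      (by rw [Multiset.card_cons] at hM; omega)
    have := poly_step L _ M ih' r ζ (hs r (by simp)) hζ
    rw [Multiset.map_cons, Multiset.prod_cons, mul_comm (X + C r)]
    exact this

/-- every member of a product of `X + C r`, `r ≥ 0`, has nonnegative coefficients -/
theorem coeff_prod_nonneg (s : Multiset ℝ) (hs : ∀ r ∈ s, 0 ≤ r) (k : ℕ) :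
    0 ≤ ((s.map fun r => X + C r).prod).coeff k := by
  induction s using Multiset.induction generalizing k with
  | empty =>
    simp only [Multiset.map_zero, Multiset.prod_zero, coeff_one]
    split_ifs <;> norm_num
  | cons r t ih =>
    have ih' := ih (fun v hv => hs v (Multiset.mem_cons_of_mem hv))
    have hr := hs r (by simp)
    rw [Multiset.map_cons, Multiset.prod_cons, add_mul, coeff_add, coeff_C_mul]
    rcases k with _ | k
    · rw [coeff_X_mul_zero]
      have := mul_nonneg hr (ih' 0)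
      linarith
    · rw [coeff_X_mul]
      have := mul_nonneg hr (ih' (k + 1))
      linarith [ih' k]

theorem prod_monic (s : Multiset ℝ) : ((s.map fun r => X + C r).prod : ℝ[X]).Monic :=
  monic_multiset_prod_of_monic _ _ fun r _ => monic_X_add_C r

theorem prod_natDegree (s : Multiset ℝ) : ((s.map fun r => X + C r).prod : ℝ[X]).natDegree = s.card := by
  rw [natDegree_multiset_prod_of_monic]
  · simp
  · intro f hf
    rw [Multiset.mem_map] at hf
    obtain ⟨r, _, rfl⟩ := hf
    exact monic_X_add_C r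

theorem ev_real (a : ℝ) (x : ℝ) (k : ℕ) : ev a (x : ℂ) k = (((e a k).eval x : ℝ) : ℂ) := by
  rw [ev]
  exact aeval_algebraMap_apply_eq_algebraMap_eval x (e a k)

theorem e_eval_pos (a : ℝ) (ha : 0 < a) (x : ℝ) (N k : ℕ) (hx : (N : ℝ) < x) (hk : k ≤ N + 1) :
    0 < (e a k).eval x := by
  rw [e, eval_mul, eval_C]
  have h1 : 0 < (ascPochhammer ℝ k).eval a := ascPochhammer_pos k a ha
  have h2 : 0 < (descPochhammer ℝ k).eval x := by
    apply descPochhammer_pos
    have : (k : ℝ) ≤ N + 1 := by exact_mod_cast hk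
    linarith
  positivity

theorem real_pos (a : ℝ) (ha : 0 < a) (x : ℝ) (N : ℕ) (hx : (N : ℝ) < x) (s : Multiset ℝ)
    (hs : ∀ r ∈ s, 0 ≤ r) (hcard : s.card = N + 1) :
    ell a (x : ℂ) ((s.map fun r : ℝ => (X + C (r : ℂ) : ℂ[X])).prod) ≠ 0 := by
  set F : ℝ[X] := (s.map fun r => X + C r).prod with hF
  have hmap : (s.map fun r : ℝ => (X + C (r : ℂ) : ℂ[X])).prod = F.map (algebraMap ℝ ℂ) := by
    rw [hF, Polynomial.map_multiset_prod, Multiset.map_map]
    congr 1
    apply Multiset.map_congr rfl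
    intro r _
    simp
  have hdeg : F.natDegree = N + 1 := by rw [hF, prod_natDegree, hcard]
  rw [hmap, ell_eq_sum a x _ (N + 1) (by rw [natDegree_map]; omega)]
  have hre : ∑ k ∈ range (N + 1 + 1), (F.map (algebraMap ℝ ℂ)).coeff k * ev a (x : ℂ) k
      = ((∑ k ∈ range (N + 1 + 1), F.coeff k * (e a k).eval x : ℝ) : ℂ) := by
    push_cast
    apply sum_congr rfl
    intro k _
    rw [coeff_map, ev_real]
    rfl
  rw [hre]
  have hpos : 0 < ∑ k ∈ range (N + 1 + 1), F.coeff k * (e a k).eval x := by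
    rw [sum_range_succ]
    have h1 : 0 ≤ ∑ k ∈ range (N + 1), F.coeff k * (e a k).eval x := by
      apply sum_nonneg
      intro k hk
      have := mem_range.mp hk
      exact mul_nonneg (coeff_prod_nonneg s hs k) (e_eval_pos a ha x N k hx (by omega)).le
    have h2 : F.coeff (N + 1) = 1 := by
      have := (prod_monic s)
      rw [Monic, leadingCoeff, ← hF, hdeg] at this
      exact this
    rw [h2, one_mul]
    have := e_eval_pos a ha x N (N + 1) hx le_rfl
    linarith
  exact_mod_cast hpos.ne'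

theorem ev_reflect (a : ℝ) (ha : 0 < a) (z : ℂ) (k : ℕ) :
    ev a (-a - z) k = ell a z ((-1 - X) ^ k) := by
  have hq : ∀ k, ell a z ((-1 - X) ^ k) = (-1) ^ k * ell a z ((X + C 1) ^ k) := by
    intro k
    have : ((-1 - X : ℂ[X]) ^ k) = C ((-1) ^ k) * (X + C 1) ^ k := by
      rw [map_pow, ← mul_pow]
      congr 1
      simp only [map_neg, map_one]
      ring
    rw [this, ← smul_eq_C_mul, map_smul, smul_eq_mul]
  rw [hq]
  induction k with
  | zero =>
    rw [ev_zero, pow_zero, pow_zero, one_mul, show (1 : ℂ[X]) = monomial 0 1 from rfl, ell_monomial,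
      ev_zero, one_mul]
  | succ k ih =>
    have h1 := ev_succ a ha (-a - z) k
    have h2 := q_rec a ha z 1 k
    have h : ((a : ℂ) + k) ≠ 0 := by
      have : (a + k : ℝ) ≠ 0 := by positivity
      exact_mod_cast this
    apply mul_left_cancel₀ h
    rw [h1, ih, pow_succ]
    linear_combination (-(-1 : ℂ) ^ k * (-1)) * h2

theorem ell_reflect (a : ℝ) (ha : 0 < a) (z : ℂ) (F : ℂ[X]) :
    ell a (-a - z) F = ell a z (F.comp (-1 - X)) := by
  induction F using Polynomial.induction_on' with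
  | add p q hp hq => rw [map_add, add_comp, map_add, hp, hq]
  | monomial k c =>
    rw [ell_monomial, ev_reflect a ha, monomial_comp, ← smul_eq_C_mul, map_smul, smul_eq_mul]

theorem real_neg (a : ℝ) (ha : 0 < a) (x : ℝ) (N : ℕ) (hx : x < -(a + N)) (s : Multiset ℝ)
    (hs : ∀ r ∈ s, r ≤ 1) (hcard : s.card = N + 1) :
    ell a (x : ℂ) ((s.map fun r : ℝ => (X + C (r : ℂ) : ℂ[X])).prod) ≠ 0 := by
  have hx' : (x : ℂ) = -a - ((-a - x : ℝ) : ℂ) := by push_cast; ring
  rw [hx', ell_reflect a ha]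
  have hcomp : ((s.map fun r : ℝ => (X + C (r : ℂ) : ℂ[X])).prod).comp (-1 - X)
      = C ((-1) ^ s.card) * ((s.map fun r : ℝ => (1 - r)).map fun r : ℝ => (X + C (r : ℂ) : ℂ[X])).prod := by
    clear hcard hs
    induction s using Multiset.induction with
    | empty => simp
    | cons r t ih =>
      rw [Multiset.map_cons, Multiset.prod_cons, mul_comp, ih, Multiset.map_cons, Multiset.map_cons,
        Multiset.prod_cons, Multiset.card_cons, pow_succ]
      simp only [add_comp, X_comp, C_comp, map_mul, map_neg, map_one, Complex.ofReal_sub,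
        Complex.ofReal_one, map_sub]
      ring
  rw [hcomp, ← smul_eq_C_mul, map_smul, smul_eq_mul]
  apply mul_ne_zero
  · exact pow_ne_zero _ (by norm_num)
  · apply real_pos a ha _ N (by linarith) _ _ (by simpa using hcard)
    intro r hr
    rw [Multiset.mem_map] at hr
    obtain ⟨u, hu, rfl⟩ := hr
    linarith [hs u hu]

/-- The symbol functional at a conjugate point. -/
theorem nonreal (a : ℝ) (ha : 0 < a) (z : ℂ) (hz : 0 < z.im) (N : ℕ)
    (hzN : (N : ℝ) + a / 2 < ‖z + a / 2‖) (s : Multiset ℝ) (hcard : s.card = N + 1) :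
    ell a z ((s.map fun r : ℝ => (X + C (r : ℂ) : ℂ[X])).prod) ≠ 0 := by
  have h := gws (ell a z) (N + 1) (fun ζ hζ => diag_ne_zero a ha z hz N hzN ζ hζ)
    (s.map fun r : ℝ => (r : ℂ)) (by
      intro r hr
      rw [Multiset.mem_map] at hr
      obtain ⟨u, _, rfl⟩ := hr
      simp) 0 (by simpa using hcard) 0 (by simp)
  rw [pow_zero, mul_one, Multiset.map_map] at h
  exact h

theorem e_degree (a : ℝ) (ha : 0 < a) (k : ℕ) : (e a k).degree = k := by
  have h1 : ((ascPochhammer ℝ k).eval a)⁻¹ ≠ 0 := inv_ne_zero (ascPochhammer_pos k a ha).ne'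
  rw [e, degree_C_mul h1, degree_eq_natDegree (monic_descPochhammer ℝ k).ne_zero,
    descPochhammer_natDegree]

/-- the `e_k` as a polynomial sequence -/
noncomputable def eSeq (a : ℝ) (ha : 0 < a) : Polynomial.Sequence ℝ where
  elems' := e a
  degree_eq' := e_degree a ha

/-- the `e_k` as a basis -/
noncomputable def eBasis (a : ℝ) (ha : 0 < a) : Module.Basis ℕ ℝ ℝ[X] :=
  (eSeq a ha).basis fun i => by
    rw [isUnit_iff_ne_zero]
    exact leadingCoeff_ne_zero.mpr ((eSeq a ha).ne_zero i)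

theorem eBasis_apply (a : ℝ) (ha : 0 < a) (k : ℕ) : eBasis a ha k = e a k :=
  (eSeq a ha).basis_eq_self _ k

/-- the map `L_a` -/
noncomputable def La (a : ℝ) (ha : 0 < a) : ℝ[X] →ₗ[ℝ] ℝ[X] :=
  (eBasis a ha).constr ℝ fun k => X ^ k

theorem La_e (a : ℝ) (ha : 0 < a) (k : ℕ) : La a ha (e a k) = X ^ k := by
  rw [← eBasis_apply a ha, La, Module.Basis.constr_basis]

theorem La_unique (a : ℝ) (ha : 0 < a) (L : ℝ[X] →ₗ[ℝ] ℝ[X]) (hL : ∀ k, L (e a k) = X ^ k) :
    L = La a ha := by
  apply (eBasis a ha).ext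
  intro k
  rw [eBasis_apply, hL, La_e]

theorem aeval_eq_ell (a : ℝ) (ha : 0 < a) (z : ℂ) (P : ℝ[X]) :
    aeval z P = ell a z ((La a ha P).map (algebraMap ℝ ℂ)) := by
  have h : (aeval z : ℝ[X] →ₐ[ℝ] ℂ).toLinearMap =
      (((ell a z).restrictScalars ℝ).comp
        (Polynomial.mapAlg ℝ ℂ).toLinearMap).comp (La a ha) := by
    apply (eBasis a ha).ext
    intro k
    rw [eBasis_apply]
    simp only [AlgHom.toLinearMap_apply, LinearMap.comp_apply, La_e, LinearMap.restrictScalars_apply]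
    rw [mapAlg_eq_map, Polynomial.map_pow, map_X, X_pow_eq_monomial, ell_monomial, one_mul, ev]
  have := LinearMap.congr_fun h P
  simpa [mapAlg_eq_map] using this

theorem La_inv (a : ℝ) (ha : 0 < a) (P : ℝ[X]) :
    P = (La a ha P).sum fun k c => c • e a k := by
  have h : (LinearMap.id : ℝ[X] →ₗ[ℝ] ℝ[X]) =
      (Polynomial.lsum fun k => (LinearMap.id : ℝ →ₗ[ℝ] ℝ).smulRight (e a k)).comp (La a ha) := by
    apply (eBasis a ha).ext
    intro k
    rw [eBasis_apply, LinearMap.comp_apply, La_e]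
    rw [X_pow_eq_monomial]
    simp [Polynomial.lsum]
  have := LinearMap.congr_fun h P
  simpa [Polynomial.lsum] using this

theorem La_degree (a : ℝ) (ha : 0 < a) (P : ℝ[X]) : (La a ha P).degree = P.degree := by
  set F := La a ha P with hF
  have hP := La_inv a ha P
  rw [← hF] at hP
  rcases eq_or_ne F 0 with h0 | h0
  · rw [h0] at hP ⊢
    rw [hP]
    simp
  · rw [sum_over_range _ (by simp), sum_range_succ] at hP
    have h1 : (F.coeff F.natDegree • e a F.natDegree).degree = F.natDegree := by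
      rw [smul_eq_C_mul, degree_C_mul, e_degree a ha]
      exact leadingCoeff_ne_zero.mpr h0
    have h2 : (∑ k ∈ range F.natDegree, F.coeff k • e a k).degree <
        (F.coeff F.natDegree • e a F.natDegree).degree := by
      rw [h1]
      rcases Nat.eq_zero_or_pos F.natDegree with hz | hz
      · rw [hz]; simp
      · refine (degree_sum_le _ _).trans_lt ?_
        rw [Finset.sup_lt_iff (by exact_mod_cast WithBot.bot_lt_coe _)]
        intro k hk
        refine (degree_smul_le _ _).trans_lt ?_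
        rw [e_degree a ha]
        exact_mod_cast mem_range.mp hk
    have h3 := degree_add_eq_right_of_degree_lt h2
    rw [← hP, h1] at h3
    rw [h3]
    exact degree_eq_natDegree h0

/-- The class `U_n` (for the linear map `L`): real polynomials `P` of degree exactly `n` such that
every complex zero of `L P` is real and lies in `[-1, 0]`. -/
def U (L : ℝ[X] →ₗ[ℝ] ℝ[X]) (n : ℕ) : Set ℝ[X] :=
  {P | P.degree = n ∧ ∀ w : ℂ, aeval w (L P) = 0 → w.im = 0 ∧ -1 ≤ w.re ∧ w.re ≤ 0}

/-- `R_n`: the supremum, over `P` in `U_n` and over the complex zeros `z` of `P`, of `|z|`. -/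
noncomputable def R (L : ℝ[X] →ₗ[ℝ] ℝ[X]) (n : ℕ) : ℝ≥0∞ :=
  ⨆ P ∈ U L n, ⨆ z ∈ {z : ℂ | aeval z P = 0}, ENNReal.ofReal ‖z‖

theorem exists_prod (F : ℝ[X]) (N : ℕ) (hF : F.degree = (N + 1 : ℕ))
    (hroots : ∀ w : ℂ, aeval w F = 0 → w.im = 0) :
    ∃ (c : ℂ) (s : Multiset ℝ), c ≠ 0 ∧ s.card = N + 1 ∧
      F.map (algebraMap ℝ ℂ) = C c * (s.map fun r : ℝ => (X + C (r : ℂ) : ℂ[X])).prod ∧
      ∀ r ∈ s, aeval (-(r : ℂ)) F = 0 := by
  set G := F.map (algebraMap ℝ ℂ) with hG
  have hF0 : F ≠ 0 := degree_ne_bot.mp (by rw [hF]; exact WithBot.natCast_ne_bot _)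
  have hG0 : G ≠ 0 := by
    rw [hG]
    exact (Polynomial.map_ne_zero_iff (algebraMap ℝ ℂ).injective).mpr hF0
  have hroot : ∀ w ∈ G.roots, aeval w F = 0 := by
    intro w hw
    have := isRoot_of_mem_roots hw
    rw [IsRoot, hG, eval_map_algebraMap] at this
    exact this
  have hsp := IsAlgClosed.splits G
  have hre : ∀ w ∈ G.roots, -(((-w.re : ℝ)) : ℂ) = w := by
    intro w hw
    have := hroots w (hroot w hw)
    apply Complex.ext
    · simp
    · simp [this]
  refine ⟨G.leadingCoeff, G.roots.map fun w => -w.re, leadingCoeff_ne_zero.mpr hG0, ?_, ?_, ?_⟩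
  · rw [Multiset.card_map]
    have h1 := hsp.natDegree_eq_card_roots
    have h2 : G.natDegree = N + 1 := by
      rw [hG, natDegree_map]
      exact natDegree_eq_of_degree_eq_some hF
    omega
  · rw [Multiset.map_map]
    have := hsp.eq_prod_roots
    rw [this]
    congr 1
    · simp [leadingCoeff_multiset_prod]
    · congr 1
      rw [← this]
      apply Multiset.map_congr rfl
      intro w hw
      have h := hre w hw
      simp only [Function.comp]
      rw [← sub_neg_eq_add, ← C_neg, h]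
  · intro r hr
    rw [Multiset.mem_map] at hr
    obtain ⟨w, hw, rfl⟩ := hr
    rw [hre w hw]
    exact hroot w hw

theorem upper (a : ℝ) (ha : 0 < a) (N : ℕ) (P : ℝ[X]) (hP : P ∈ U (La a ha) (N + 1)) (z : ℂ)
    (hz : aeval z P = 0) : ‖z‖ ≤ a + N := by
  obtain ⟨hdeg, hr⟩ := hP
  obtain ⟨c, s, hc, hcard, hprod, hs⟩ := exists_prod (La a ha P) N
    (by rw [La_degree, hdeg]) (fun w hw => (hr w hw).1)
  have hs01 : ∀ r ∈ s, 0 ≤ r ∧ r ≤ 1 := by
    intro r hrs
    have := hr _ (hs r hrs)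
    simp at this
    exact ⟨this.2, this.1⟩
  have hell : ∀ u : ℂ, aeval u P = 0 → ell a u ((s.map fun r : ℝ => (X + C (r : ℂ) : ℂ[X])).prod) = 0 := by
    intro u hu
    rw [aeval_eq_ell a ha, hprod, ← smul_eq_C_mul, map_smul, smul_eq_mul] at hu
    exact (mul_eq_zero.mp hu).resolve_left hc
  have hna : ‖((a : ℂ) / 2)‖ = a / 2 := by
    rw [show ((a : ℂ) / 2) = ((a / 2 : ℝ) : ℂ) by push_cast; rfl, Complex.norm_real,
      Real.norm_of_nonneg (by positivity)]
  have hpos : ∀ u : ℂ, aeval u P = 0 → 0 < u.im → ‖u‖ ≤ a + N := by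
    intro u hu him
    have h1 : ‖u + a / 2‖ ≤ N + a / 2 := by
      by_contra hcon
      push Not at hcon
      exact nonreal a ha u him N hcon s hcard (hell u hu)
    calc ‖u‖ = ‖(u + a / 2) - a / 2‖ := by ring_nf
      _ ≤ ‖u + a / 2‖ + ‖(a : ℂ) / 2‖ := norm_sub_le _ _
      _ ≤ a + N := by rw [hna]; linarith
  rcases lt_trichotomy 0 z.im with h | h | h
  · exact hpos z hz h
  · have hzr : z = (z.re : ℂ) := by
      apply Complex.ext
      · simp
      · simp [← h]
    rw [hzr] at hz ⊢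
    rw [Complex.norm_real, Real.norm_eq_abs, abs_le]
    constructor
    · by_contra hcon
      push Not at hcon
      exact real_neg a ha z.re N (by linarith) s (fun r hr => (hs01 r hr).2) hcard (hell _ hz)
    · by_contra hcon
      push Not at hcon
      exact real_pos a ha z.re N (by linarith) s (fun r hr => (hs01 r hr).1) hcard (hell _ hz)
  · have h1 : aeval ((starRingEnd ℂ) z) P = 0 := by
      rw [aeval_conj, hz, map_zero]
    have := hpos _ h1 (by rw [Complex.conj_im]; linarith)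
    rwa [RCLike.norm_conj] at this

theorem lower (a : ℝ) (ha : 0 < a) (N : ℕ) :
    ∃ P ∈ U (La a ha) (N + 1), aeval (-(a + N : ℂ)) P = 0 := by
  set F : ℝ[X] := (X + C 1) ^ (N + 1) with hF
  set P : ℝ[X] := ∑ k ∈ range (N + 1 + 1), F.coeff k • e a k with hPdef
  have hFdeg : F.natDegree = N + 1 := by
    rw [hF, natDegree_pow, natDegree_X_add_C, mul_one]
  have hLP : La a ha P = F := by
    rw [hPdef, map_sum]
    conv_rhs => rw [F.as_sum_range' (N + 1 + 1) (by omega)]
    apply sum_congr rfl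
    intro k _
    rw [map_smul, La_e, smul_X_eq_monomial]
  have hFne : F ≠ 0 := by
    intro h
    rw [h] at hFdeg
    simp at hFdeg
  refine ⟨P, ⟨?_, ?_⟩, ?_⟩
  · rw [← La_degree a ha, hLP, degree_eq_natDegree hFne, hFdeg]
  · intro w hw
    rw [hLP, hF] at hw
    simp only [map_pow, map_add, aeval_X, aeval_C, map_one] at hw
    have : w = -1 := by
      have := pow_eq_zero_iff (n := N + 1) (by omega) |>.mp hw
      linear_combination this
    rw [this]
    simp
  · rw [aeval_eq_ell a ha, hLP, hF, Polynomial.map_pow, Polynomial.map_add, map_X, map_C, map_one]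
    have h := q_rec a ha (-(a + N : ℂ)) 1 N
    have h' : ((a : ℂ) + N) ≠ 0 := by
      have : (a + N : ℝ) ≠ 0 := by positivity
      exact_mod_cast this
    have e1 : (-(a + N : ℂ) - N + 1 * (2 * N + a)) = 0 := by ring
    rw [e1, sub_self] at h
    simp only [zero_mul, mul_zero, add_zero] at h
    exact (mul_eq_zero.mp h).resolve_left h'

/-- `R_n = a + n - 1` for every real `a > 0` and every `n ≥ 1`. -/
theorem result (a : ℝ) (ha : 0 < a) :
    (∃! L : ℝ[X] →ₗ[ℝ] ℝ[X], ∀ k, L (e a k) = X ^ k) ∧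
    ∀ L : ℝ[X] →ₗ[ℝ] ℝ[X], (∀ k, L (e a k) = X ^ k) →
      ∀ n : ℕ, 1 ≤ n → R L n = ENNReal.ofReal (a + n - 1) := by
  refine ⟨⟨La a ha, La_e a ha, fun L hL => La_unique a ha L hL⟩, ?_⟩
  intro L hL n hn
  obtain rfl := La_unique a ha L hL
  obtain ⟨N, rfl⟩ : ∃ N, n = N + 1 := ⟨n - 1, by omega⟩
  have hval : a + ((N + 1 : ℕ) : ℝ) - 1 = a + N := by push_cast; ring
  rw [hval]
  apply le_antisymm
  · apply iSup₂_le
    intro P hP
    apply iSup₂_le
    intro z hz
    exact ENNReal.ofReal_le_ofReal (upper a ha N P hP z hz)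
  · obtain ⟨P, hP, hz⟩ := lower a ha N
    have h1 : ‖(-(a + N : ℂ))‖ = a + N := by
      rw [norm_neg, show ((a : ℂ) + N) = ((a + N : ℝ) : ℂ) by push_cast; rfl, Complex.norm_real,
        Real.norm_of_nonneg (by positivity)]
    rw [← h1]
    refine le_trans ?_ (le_iSup₂ (f := fun P (_ : P ∈ U (La a ha) (N + 1)) =>
      ⨆ z ∈ {z : ℂ | aeval z P = 0}, ENNReal.ofReal ‖z‖) P hP)
    exact le_iSup₂ (f := fun z (_ : z ∈ {z : ℂ | aeval z P = 0}) => ENNReal.ofReal ‖z‖)
      (-(a + N : ℂ)) hz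

end Pool.Agent.Results.MP_03af15_an.LargestZeroModulus
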